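import Pool.Agent.W325.S3.Stm

/-! S3-AVG (owner helper325): choice of the corners by averaging. -/

set_option autoImplicit false

namespace Pool.Agent.W216.S3.Av

open Finset Pool.Agent.H46R2.K3 Pool.Agent.W325.S3

/-- a vector of natural numbers as a point -/
def cv (v : Fin 3 → ℕ) : V := fun t => (v t : ℤ)

theorem cv_inj : Function.Injective cv := by
  intro v w h
  funext t
  have := congrFun h t
  simp only [cv] at this
  exact_mod_cast this

open Classical in
/-- number of the points of the leg in `N` -/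
noncomputable def occ (N : Finset V) (a : V) (d : Fin 3) (lam : ℕ) : ℕ :=
  #((range lam).filter fun x : ℕ => a + ax d (x : ℤ) ∈ N)

theorem occ_le (N : Finset V) (a : V) (d : Fin 3) (lam : ℕ) : occ N a d lam ≤ lam := by
  classical
  unfold occ
  refine (card_filter_le _ _).trans ?_
  rw [card_range]

theorem occ_sum (N : Finset V) (C : Finset (Fin 3 → ℕ)) (a b : V) (d : Fin 3) (lam : ℕ) :
    ∑ v ∈ C, (occ N (a + cv v + b) d lam : ℝ) ≤ lam * (#N : ℝ) := by
  classical
  have h1 : ∑ v ∈ C, (occ N (a + cv v + b) d lam : ℝ) =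
      ∑ x ∈ range lam, (#(C.filter fun v => a + cv v + b + ax d (x : ℤ) ∈ N) : ℝ) := by
    unfold occ
    simp only [← sum_boole]
    rw [sum_comm]
  rw [h1]
  calc ∑ x ∈ range lam, (#(C.filter fun v => a + cv v + b + ax d (x : ℤ) ∈ N) : ℝ)
      ≤ ∑ _x ∈ range lam, (#N : ℝ) := by
        refine sum_le_sum fun x _ => ?_
        have : #(C.filter fun v => a + cv v + b + ax d (x : ℤ) ∈ N) ≤ #N := by
          apply card_le_card_of_injOn (fun v => a + cv v + b + ax d (x : ℤ))
          · intro v hv
            rw [Finset.mem_coe, mem_filter] at hv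
            exact hv.2
          · intro v _ w _ h
            simp only at h
            have h2 := add_right_cancel (add_right_cancel h)
            exact cv_inj (add_left_cancel h2)
        exact_mod_cast this
    _ = _ := by rw [sum_const, card_range, nsmul_eq_mul]

theorem Psi_le {A : Finset V} {I : ℕ} {E : ℕ → ℕ} {r : ℕ → ℝ} {Y : ℝ}
    (hr : ∀ l < I, 0 ≤ r l) (hY : ∀ l < I, 192 * r l * E (l + 1) ≤ Y) (N : ℕ → Finset V)
    (hN : ∀ l < I, ∀ y, near A (48 * E (l + 1)) y → y ∈ N l) (a : V) (d : Fin 3) (lam : ℕ) :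
    Psi A I E r a d lam ≤ lam * r I + I * Y + ∑ l ∈ range I, r l * (occ (N l) a d lam : ℝ) := by
  classical
  unfold Psi psi
  rw [sum_add_distrib, sum_const, card_range, nsmul_eq_mul, sum_comm]
  have h1 : ∀ l ∈ range I, ∑ x ∈ range lam, r l *
      ((if near A (48 * E (l + 1)) (a + ax d (x : ℤ)) then (1 : ℝ) else 0) +
        (if x < 96 * E (l + 1) then 1 else 0) + (if lam < x + 96 * E (l + 1) then 1 else 0)) ≤
      Y + r l * (occ (N l) a d lam : ℝ) := by
    intro l hl
    have hl' := mem_range.1 hl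
    rw [← mul_sum, sum_add_distrib, sum_add_distrib, sum_boole, sum_boole, sum_boole]
    have b1 : (#((range lam).filter fun x : ℕ => near A (48 * E (l + 1)) (a + ax d (x : ℤ))) : ℝ) ≤
        (occ (N l) a d lam : ℝ) := by
      unfold occ
      have : (range lam).filter (fun x : ℕ => near A (48 * E (l + 1)) (a + ax d (x : ℤ))) ⊆
          (range lam).filter (fun x : ℕ => a + ax d (x : ℤ) ∈ N l) := by
        intro x hx
        rw [mem_filter] at hx ⊢
        exact ⟨hx.1, hN l hl' _ hx.2⟩
      exact_mod_cast card_le_card this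
    have b2 : (#((range lam).filter fun x : ℕ => x < 96 * E (l + 1)) : ℝ) ≤ 96 * E (l + 1) := by
      have : (range lam).filter (fun x : ℕ => x < 96 * E (l + 1)) ⊆ range (96 * E (l + 1)) := by
        intro x hx
        rw [mem_filter] at hx
        exact mem_range.2 hx.2
      have h2 := card_le_card this
      rw [card_range] at h2
      exact_mod_cast h2
    have b3 : (#((range lam).filter fun x : ℕ => lam < x + 96 * E (l + 1)) : ℝ) ≤
        96 * E (l + 1) := by
      have : (range lam).filter (fun x : ℕ => lam < x + 96 * E (l + 1)) ⊆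
          Ico (lam - 96 * E (l + 1)) lam := by
        intro x hx
        rw [mem_filter, mem_range] at hx
        exact mem_Ico.2 ⟨by omega, hx.1⟩
      have h2 := card_le_card this
      rw [Nat.card_Ico] at h2
      have h3 : #((range lam).filter fun x : ℕ => lam < x + 96 * E (l + 1)) ≤ 96 * E (l + 1) := by
        omega
      exact_mod_cast h3
    have h3 := hY l hl'
    have h4 := hr l hl'
    calc r l * (_ + _ + _) ≤ r l * ((occ (N l) a d lam : ℝ) + 96 * E (l + 1) + 96 * E (l + 1)) :=
          mul_le_mul_of_nonneg_left (add_le_add (add_le_add b1 b2) b3) h4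
      _ = 192 * r l * E (l + 1) + r l * (occ (N l) a d lam : ℝ) := by ring
      _ ≤ _ := by linarith
  have h2 := sum_le_sum h1
  rw [sum_add_distrib, sum_const, card_range, nsmul_eq_mul] at h2
  linarith

/-- choice by averaging -/
theorem choice (I : ℕ) (C : ℕ → Finset (Fin 3 → ℕ)) (hC : ∀ i ≤ I, (C i).Nonempty)
    (f : ℕ → V → (Fin 3 → ℕ) → ℝ) (M : ℕ → V → ℝ) (β : ℝ)
    (hM : ∀ i ≤ I, ∀ a, ∑ v ∈ C i, f i a v ≤ #(C i) * M i a)
    (hb : ∀ i ≤ I, ∀ a, ∑ v ∈ C i, M (i + 1) (a + cv v) ≤ #(C i) * β) :
    ∃ u : ℕ → Fin 3 → ℕ, (∀ k ≤ I, u k ∈ C k) ∧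
      ∑ k ∈ range (I + 1), f k (cor u k) (u k) + M (I + 1) (cor u (I + 1)) ≤
        M 0 0 + (I + 1) * β := by
  classical
  have key : ∀ i ≤ I + 1, ∃ u : ℕ → Fin 3 → ℕ, (∀ k < i, u k ∈ C k) ∧
      ∑ k ∈ range i, f k (cor u k) (u k) + M i (cor u i) ≤ M 0 0 + i * β := by
    intro i
    induction i with
    | zero =>
      intro _
      refine ⟨fun _ _ => 0, by intro k hk; omega, ?_⟩
      have : cor (fun _ _ => 0) 0 = 0 := by
        funext t
        simp [cor]
      rw [this]
      simp
    | succ i ih =>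
      intro hi
      obtain ⟨u, hu, hs⟩ := ih (by omega)
      have hiI : i ≤ I := by omega
      have h1 := add_le_add (hM i hiI (cor u i)) (hb i hiI (cor u i))
      rw [← sum_add_distrib, ← mul_add] at h1
      obtain ⟨v, hv, hvle⟩ : ∃ v ∈ C i, f i (cor u i) v + M (i + 1) (cor u i + cv v) ≤
          M i (cor u i) + β := by
        apply exists_le_of_sum_le (hC i hiI)
        rw [sum_const, nsmul_eq_mul]
        exact h1
      set u' := Function.update u i v with hu'
      have hne : ∀ k, k ≠ i → u' k = u k := fun k hk => by rw [hu', Function.update_of_ne hk]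
      have hii : u' i = v := by rw [hu', Function.update_self]
      have hcor : ∀ k ≤ i, cor u' k = cor u k := by
        intro k hk
        funext t
        unfold cor
        refine sum_congr rfl fun j hj => ?_
        rw [mem_range] at hj
        rw [hne j (by omega)]
      have hcor2 : cor u' (i + 1) = cor u i + cv v := by
        funext t
        have := congrFun (hcor i le_rfl) t
        unfold cor at this ⊢
        rw [sum_range_succ, Pi.add_apply, this, hii]
        rfl
      refine ⟨u', ?_, ?_⟩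
      · intro k hk
        rcases Nat.lt_succ_iff_lt_or_eq.1 hk with h | h
        · rw [hne k (by omega)]
          exact hu k h
        · rw [h, hii]
          exact hv
      · rw [sum_range_succ, hcor i le_rfl, hii, hcor2]
        have h2 : ∑ k ∈ range i, f k (cor u' k) (u' k) = ∑ k ∈ range i, f k (cor u k) (u k) := by
          refine sum_congr rfl fun k hk => ?_
          rw [mem_range] at hk
          rw [hcor k (by omega), hne k (by omega)]
        rw [h2]
        push_cast
        linarith
  obtain ⟨u, hu, hs⟩ := key (I + 1) le_rfl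
  refine ⟨u, fun k hk => hu k (by omega), ?_⟩
  push_cast at hs
  exact hs

/-- the cube -/
def cb (R : ℕ) : Finset (Fin 3 → ℕ) := Fintype.piFinset fun _ : Fin 3 => Ico R (2 * R)

theorem mem_cb {R : ℕ} {v : Fin 3 → ℕ} : v ∈ cb R ↔ ∀ d, R ≤ v d ∧ v d < 2 * R := by
  unfold cb
  rw [Fintype.mem_piFinset]
  simp only [mem_Ico]

theorem card_cb (R : ℕ) : (#(cb R) : ℝ) = (R : ℝ) ^ 3 := by
  unfold cb
  rw [Fintype.card_piFinset]
  simp only [Nat.card_Ico, prod_const, card_univ, Fintype.card_fin]
  have : 2 * R - R = R := by omega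
  rw [this]
  push_cast
  ring

theorem avg : S_AVG := by
  classical
  intro I E r hanti hpos A Vl R F Y hnum
  have hr0 : ∀ l < I, 0 ≤ r l := fun l hl => (hpos l hl.le).le
  have hrI := (hpos I le_rfl).le
  -- monotone
  have hri : ∀ l i, i ≤ l → l ≤ I → r l ≤ r i := by
    intro l i hil hlI
    induction l, hil using Nat.le_induction with
    | base => exact le_rfl
    | succ l hl ih => exact (hanti l (by omega)).trans (ih (by omega))
  have hY0 : 0 ≤ Y := by
    have h1 := hnum.rR I le_rfl
    have : 0 ≤ r I * R I := by positivity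
    linarith
  have hex : ∀ l, ∃ N : Finset V, l < I →
      (∀ y, near A (48 * E (l + 1)) y → y ∈ N) ∧ (#N : ℝ) ≤ Vl l := by
    intro l
    by_cases hl : l < I
    · obtain ⟨N, h1, h2⟩ := hnum.vol l hl
      exact ⟨N, fun _ => ⟨h1, h2⟩⟩
    · exact ⟨∅, fun h => absurd h hl⟩
  choose N hN using hex
  have hN1 : ∀ l < I, ∀ y, near A (48 * E (l + 1)) y → y ∈ N l := fun l hl => (hN l hl).1
  have hPsi := fun (a : V) (d : Fin 3) (lam : ℕ) => Psi_le hr0 hnum.taper N hN1 a d lam
  -- legs of stage `i`
  have hleg : ∀ i ≤ I, ∀ (a : V) (d : Fin 3) (lam : ℕ), lam < 2 * R i →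
      Psi A I E r a d lam ≤ (2 + 3 * I) * Y +
        ∑ l ∈ range i, r l * (occ (N l) a d lam : ℝ) := by
    intro i hi a d lam hlam
    have h1 := hPsi a d lam
    have hlamR : (lam : ℝ) ≤ 2 * R i := by exact_mod_cast hlam.le
    have h2 : (lam : ℝ) * r I ≤ 2 * Y := by
      have h3 := hri I i hi le_rfl
      have h4 := hnum.rR i hi
      calc (lam : ℝ) * r I ≤ (2 * R i) * r i := by
            have := (hpos i hi).le
            gcongr
        _ = 2 * (r i * R i) := by ring
        _ ≤ 2 * Y := by linarith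
    have hsplit : ∑ l ∈ range I, r l * (occ (N l) a d lam : ℝ) =
        ∑ l ∈ range i, r l * (occ (N l) a d lam : ℝ) +
          ∑ l ∈ Ico i I, r l * (occ (N l) a d lam : ℝ) := by
      rw [← sum_range_add_sum_Ico _ hi]
    have h3 : ∑ l ∈ Ico i I, r l * (occ (N l) a d lam : ℝ) ≤ I * (2 * Y) := by
      calc ∑ l ∈ Ico i I, r l * (occ (N l) a d lam : ℝ) ≤ ∑ _l ∈ Ico i I, 2 * Y := by
            refine sum_le_sum fun l hl => ?_
            rw [mem_Ico] at hl
            have h4 : (occ (N l) a d lam : ℝ) ≤ lam := by exact_mod_cast occ_le _ _ _ _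
            have h5 := hri l i hl.1 hl.2.le
            have h6 := (hpos i hi).le
            calc r l * (occ (N l) a d lam : ℝ) ≤ r i * (2 * R i) := by
                  have := hr0 l hl.2
                  exact mul_le_mul h5 (h4.trans hlamR) (Nat.cast_nonneg _) h6
              _ = 2 * (r i * R i) := by ring
              _ ≤ 2 * Y := by linarith [hnum.rR i hi]
        _ = ((I - i : ℕ) : ℝ) * (2 * Y) := by rw [sum_const, Nat.card_Ico, nsmul_eq_mul]
        _ ≤ I * (2 * Y) := by
            apply mul_le_mul_of_nonneg_right _ (by linarith)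
            exact_mod_cast Nat.sub_le _ _
    rw [hsplit] at h1
    linarith
  set β : ℝ := (12 * I + 6) * Y with hβ
  -- averages over the previous cube
  have havg : ∀ i < I, ∀ (a b : V) (d : Fin 3) (lam : ℕ), lam < 2 * R (i + 1) →
      ∑ v ∈ cb (R i), Psi A I E r (a + cv v + b) d lam ≤ #(cb (R i)) * ((2 + 4 * I) * Y) := by
    intro i hi a b d lam hlam
    have h1 : ∑ v ∈ cb (R i), Psi A I E r (a + cv v + b) d lam ≤ ∑ v ∈ cb (R i),
        ((2 + 3 * I) * Y + ∑ l ∈ range (i + 1), r l * (occ (N l) (a + cv v + b) d lam : ℝ)) :=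
      sum_le_sum fun v _ => hleg (i + 1) hi (a + cv v + b) d lam hlam
    rw [sum_add_distrib, sum_const, nsmul_eq_mul, sum_comm] at h1
    have h2 : ∑ l ∈ range (i + 1), ∑ v ∈ cb (R i), r l * (occ (N l) (a + cv v + b) d lam : ℝ) ≤
        ∑ _l ∈ range (i + 1), #(cb (R i)) * Y := by
      refine sum_le_sum fun l hl => ?_
      rw [mem_range] at hl
      have hlI : l < I := by omega
      rw [← mul_sum]
      have h3 := occ_sum (N l) (cb (R i)) a b d lam
      have h4 := (hN l hlI).2
      have h5 := hnum.avg l i (by omega) hi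
      have h6 := hr0 l hlI
      have hVl : 0 ≤ Vl l := (Nat.cast_nonneg _).trans h4
      have hlamR : (lam : ℝ) ≤ 2 * R (i + 1) := by exact_mod_cast hlam.le
      calc r l * ∑ v ∈ cb (R i), (occ (N l) (a + cv v + b) d lam : ℝ)
          ≤ r l * ((2 * R (i + 1)) * Vl l) := by
            apply mul_le_mul_of_nonneg_left _ h6
            exact h3.trans (mul_le_mul hlamR h4 (Nat.cast_nonneg _) (by positivity))
        _ = r l * (2 * R (i + 1)) * Vl l := by ring
        _ ≤ Y * (R i : ℝ) ^ 3 := h5
        _ = #(cb (R i)) * Y := by rw [card_cb]; ring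
    rw [sum_const, card_range, nsmul_eq_mul] at h2
    have h3 : ((i + 1 : ℕ) : ℝ) ≤ I := by exact_mod_cast hi
    have h4 : ((i + 1 : ℕ) : ℝ) * (#(cb (R i)) * Y) ≤ I * (#(cb (R i)) * Y) :=
      mul_le_mul_of_nonneg_right h3 (by positivity)
    calc _ ≤ _ := h1
      _ ≤ #(cb (R i)) * ((2 + 3 * I) * Y) + I * (#(cb (R i)) * Y) := by linarith
      _ = _ := by ring
  have hne : ∀ i ≤ I, (cb (R i)).Nonempty := by
    intro i hi
    refine ⟨fun _ => R i, mem_cb.2 fun d => ⟨le_rfl, ?_⟩⟩
    have := hnum.R_pos i hi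
    omega
  -- the potentials
  set M : ℕ → V → ℝ := fun i a => if i ≤ I then
    (∑ v ∈ cb (R i), stc A I E r a v) / #(cb (R i)) else Psi A I E r a 0 F with hMdef
  obtain ⟨u, hu1, hu2⟩ := choice I (fun i => cb (R i)) hne (fun _ a v => stc A I E r a v) M β
    (by
      intro i hi a
      have hpos' : (0 : ℝ) < #(cb (R i)) := by
        exact_mod_cast (hne i hi).card_pos
      simp only [hMdef, if_pos hi]
      rw [mul_div_cancel₀ _ hpos'.ne'])
    (by
      intro i hi a
      rcases Nat.lt_or_eq_of_le hi with hlt | heq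
      · -- stage `i + 1`
        have hi1 : i + 1 ≤ I := hlt
        have hpos' : (0 : ℝ) < #(cb (R (i + 1))) := by
          exact_mod_cast (hne (i + 1) hi1).card_pos
        simp only [hMdef, if_pos hi1]
        rw [← sum_div, div_le_iff₀ hpos', sum_comm]
        have h1 : ∀ v' ∈ cb (R (i + 1)), ∑ v ∈ cb (R i), stc A I E r (a + cv v) v' ≤
            #(cb (R i)) * β := by
          intro v' hv'
          rw [mem_cb] at hv'
          have g0 := havg i hlt a 0 0 (v' 0) (hv' 0).2
          have g1 := havg i hlt a (ax 0 (v' 0 : ℤ)) 1 (v' 1) (hv' 1).2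
          have g2 := havg i hlt a (ax 0 (v' 0 : ℤ) + ax 1 (v' 1 : ℤ)) 2 (v' 2) (hv' 2).2
          unfold stc
          rw [sum_add_distrib, sum_add_distrib]
          simp only [add_zero] at g0
          simp only [← add_assoc] at g2
          rw [hβ]
          calc _ ≤ #(cb (R i)) * ((2 + 4 * I) * Y) + #(cb (R i)) * ((2 + 4 * I) * Y) +
                #(cb (R i)) * ((2 + 4 * I) * Y) := add_le_add (add_le_add g0 g1) g2
            _ = _ := by ring
        calc _ ≤ ∑ _v' ∈ cb (R (i + 1)), (#(cb (R i)) * β : ℝ) := sum_le_sum h1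
          _ = _ := by rw [sum_const, nsmul_eq_mul]; ring
      · -- the final leg
        subst heq
        have hno : ¬ (i + 1 ≤ i) := by omega
        simp only [hMdef, if_neg hno]
        have h1 : ∑ v ∈ cb (R i), Psi A i E r (a + cv v) 0 F ≤ ∑ v ∈ cb (R i),
            (F * r i + i * Y + ∑ l ∈ range i, r l * (occ (N l) (a + cv v) 0 F : ℝ)) :=
          sum_le_sum fun v _ => hPsi (a + cv v) 0 F
        rw [sum_add_distrib, sum_const, nsmul_eq_mul, sum_comm] at h1
        have h2 : ∑ l ∈ range i, ∑ v ∈ cb (R i), r l * (occ (N l) (a + cv v) 0 F : ℝ) ≤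
            ∑ _l ∈ range i, #(cb (R i)) * Y := by
          refine sum_le_sum fun l hl => ?_
          rw [mem_range] at hl
          rw [← mul_sum]
          have h3 := occ_sum (N l) (cb (R i)) a 0 0 F
          simp only [add_zero] at h3
          have h4 := (hN l hl).2
          have h5 := hnum.avgF l hl
          have h6 := hr0 l hl
          calc r l * ∑ v ∈ cb (R i), (occ (N l) (a + cv v) 0 F : ℝ)
              ≤ r l * (F * Vl l) := by
                apply mul_le_mul_of_nonneg_left _ h6
                exact h3.trans (mul_le_mul_of_nonneg_left h4 (Nat.cast_nonneg _))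
            _ = r l * F * Vl l := by ring
            _ ≤ Y * (R i : ℝ) ^ 3 := h5
            _ = #(cb (R i)) * Y := by rw [card_cb]; ring
        rw [sum_const, card_range, nsmul_eq_mul] at h2
        have h3 : (F : ℝ) * r i ≤ Y := by
          have := hnum.rF
          linarith
        have h4 : (#(cb (R i)) : ℝ) * (F * r i + i * Y) ≤ #(cb (R i)) * (Y + i * Y) := by
          gcongr
        calc _ ≤ _ := h1
          _ ≤ #(cb (R i)) * (Y + i * Y) + i * (#(cb (R i)) * Y) := by linarith
          _ = #(cb (R i)) * ((2 * i + 1) * Y) := by ring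
          _ ≤ #(cb (R i)) * β := by
              rw [hβ]
              have h7 : (0 : ℝ) ≤ i := Nat.cast_nonneg _
              gcongr
              · linarith
              · norm_num)
  refine ⟨u, fun i hi => mem_cb.1 (hu1 i hi), ?_⟩
  have hM0 : M 0 0 ≤ β := by
    have h0 : 0 ≤ I := Nat.zero_le _
    have hpos' : (0 : ℝ) < #(cb (R 0)) := by
      exact_mod_cast (hne 0 h0).card_pos
    simp only [hMdef, if_pos h0]
    rw [div_le_iff₀ hpos']
    calc ∑ v ∈ cb (R 0), stc A I E r 0 v ≤ ∑ _v ∈ cb (R 0), β := by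
          refine sum_le_sum fun v hv => ?_
          rw [mem_cb] at hv
          unfold stc
          have g0 := hleg 0 h0 0 0 (v 0) (hv 0).2
          have g1 := hleg 0 h0 (0 + ax 0 (v 0 : ℤ)) 1 (v 1) (hv 1).2
          have g2 := hleg 0 h0 (0 + ax 0 (v 0 : ℤ) + ax 1 (v 1 : ℤ)) 2 (v 2) (hv 2).2
          rw [range_zero, sum_empty, add_zero] at g0 g1 g2
          rw [hβ]
          have : 0 ≤ (I : ℝ) * Y := by positivity
          linarith
      _ = β * #(cb (R 0)) := by rw [sum_const, nsmul_eq_mul]; ring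
  have hlast : M (I + 1) (cor u (I + 1)) = Psi A I E r (cor u (I + 1)) 0 F := by
    have hno : ¬ (I + 1 ≤ I) := by omega
    simp only [hMdef, if_neg hno]
  rw [hlast] at hu2
  refine hu2.trans ?_
  have h1 : M 0 0 + (I + 1) * β ≤ (I + 2) * β := by linarith
  refine h1.trans ?_
  rw [hβ]
  have hI : (0 : ℝ) ≤ I := Nat.cast_nonneg _
  have : ((I : ℝ) + 2) * (12 * I + 6) ≤ 14 * (I + 1) ^ 2 := by nlinarith [sq_nonneg ((I : ℝ) - 1)]
  calc ((I : ℝ) + 2) * ((12 * I + 6) * Y) = (((I : ℝ) + 2) * (12 * I + 6)) * Y := by ring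
    _ ≤ (14 * (I + 1) ^ 2) * Y := mul_le_mul_of_nonneg_right this hY0
    _ = _ := by ring

end Pool.Agent.W216.S3.Av
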