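import Pool.Agent.W325.S3.Stm
import Pool.Agent.H46R2.K3.Basic

/-! S3-LEG (owner helper325): greedy words along a leg. -/

set_option autoImplicit false

namespace Pool.Agent.W216.S3

open Finset Pool.Agent.H46R2.K3 Pool.Agent.H46R2.K3.P Pool.Agent.W325.S3

/-! ### the cost density -/

theorem psi_ge {A : Finset V} {I : ℕ} {E : ℕ → ℕ} {r : ℕ → ℝ} (hr : ∀ l < I, 0 ≤ r l) (a : V)
    (d : Fin 3) (lam x : ℕ) : r I ≤ psi A I E r a d lam x := by
  classical
  unfold psi
  have : 0 ≤ ∑ l ∈ range I, r l * ((if near A (48 * E (l + 1)) (a + ax d (x : ℤ)) then (1 : ℝ)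
      else 0) + (if x < 96 * E (l + 1) then 1 else 0) +
      (if lam < x + 96 * E (l + 1) then 1 else 0)) := by
    refine sum_nonneg fun l hl => mul_nonneg (hr l (mem_range.1 hl)) ?_
    split_ifs <;> norm_num
  linarith

theorem psi_ge' {A : Finset V} {I : ℕ} {E : ℕ → ℕ} {r : ℕ → ℝ} (hr : ∀ l < I, 0 ≤ r l) (a : V)
    (d : Fin 3) (lam x : ℕ) {l : ℕ} (hl : l < I)
    (h : near A (48 * E (l + 1)) (a + ax d (x : ℤ)) ∨ x < 96 * E (l + 1) ∨
      lam < x + 96 * E (l + 1)) : r I + r l ≤ psi A I E r a d lam x := by
  classical
  unfold psi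
  have h0 : ∀ l ∈ range I, 0 ≤ r l * ((if near A (48 * E (l + 1)) (a + ax d (x : ℤ)) then (1 : ℝ)
      else 0) + (if x < 96 * E (l + 1) then 1 else 0) +
      (if lam < x + 96 * E (l + 1) then 1 else 0)) := by
    intro l hl
    refine mul_nonneg (hr l (mem_range.1 hl)) ?_
    split_ifs <;> norm_num
  have h1 := single_le_sum h0 (mem_range.2 hl)
  have h2 : r l * 1 ≤ r l * ((if near A (48 * E (l + 1)) (a + ax d (x : ℤ)) then (1 : ℝ)
      else 0) + (if x < 96 * E (l + 1) then 1 else 0) +
      (if lam < x + 96 * E (l + 1) then 1 else 0)) := by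
    apply mul_le_mul_of_nonneg_left _ (hr l hl)
    rcases h with h | h | h
    · rw [if_pos h]; split_ifs <;> norm_num
    · rw [if_pos h]; split_ifs <;> norm_num
    · rw [if_pos h]; split_ifs <;> norm_num
  linarith

/-! ### hits -/

theorem hits_append (A : Finset V) (a : V) (u v : List St) :
    hits A a (u ++ v) ≤ hits A a u + hits A (a + disp u) v := by
  classical
  unfold hits
  have hsub : (Icc 1 (u ++ v).length).filter (fun j => a + pos (u ++ v) j ∈ A) ⊆
      ((Icc 1 u.length).filter (fun j => a + pos u j ∈ A)) ∪
      (((Icc 1 v.length).filter (fun j => a + disp u + pos v j ∈ A)).image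
        (fun j => u.length + j)) := by
    intro j hj
    rw [mem_filter, mem_Icc, List.length_append] at hj
    obtain ⟨⟨h1, h2⟩, h3⟩ := hj
    rw [mem_union]
    rcases le_or_gt j u.length with h | h
    · left
      rw [pos_append_left v h] at h3
      exact mem_filter.2 ⟨mem_Icc.2 ⟨h1, h⟩, h3⟩
    · right
      rw [pos_append_right' v h.le] at h3
      refine mem_image.2 ⟨j - u.length, mem_filter.2 ⟨mem_Icc.2 ⟨by omega, by omega⟩, ?_⟩,
        by omega⟩
      rwa [add_assoc]
  exact (card_le_card hsub).trans ((card_union_le _ _).trans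
    (Nat.add_le_add_left card_image_le _))

theorem hits_le_length (A : Finset V) (a : V) (u : List St) : hits A a u ≤ u.length := by
  classical
  unfold hits
  refine (card_filter_le _ _).trans ?_
  rw [Nat.card_Icc]
  omega

theorem hits_zero (A : Finset V) (a : V) (u : List St) (D : ℕ) (hn : ¬ near A D a)
    (hu : ∀ i ≤ u.length, ∀ t, |pos u i t| ≤ (D : ℤ)) : hits A a u = 0 := by
  classical
  unfold hits
  rw [card_eq_zero, filter_eq_empty_iff]
  intro j hj hA
  rw [mem_Icc] at hj
  apply hn
  refine ⟨_, hA, fun t => ?_⟩
  have := hu j hj.2 t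
  rw [Pi.add_apply]
  have e : a t - (a t + pos u j t) = -(pos u j t) := by ring
  rw [e, abs_neg]
  exact this

/-! ### one step -/

/-- the words in the claim -/
structure Wd (A : Finset V) (I : ℕ) (E : ℕ → ℕ) (r : ℕ → ℝ) (a : V) (d : Fin 3) (lam x : ℕ)
    (v : List St) : Prop where
  saw : Saw v
  disp : disp v = ax d ((lam : ℤ) - x)
  dir : ∀ i, 1 ≤ i → i ≤ v.length → 0 < pos v i d ∧ pos v i d ≤ (lam : ℤ) - x
  lat : ∀ i ≤ v.length, ∀ t, t ≠ d →
    3 * |pos v i t| ≤ x + pos v i d ∧ 3 * |pos v i t| ≤ (lam : ℤ) - x - pos v i d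
  hit : (hits A (a + ax d (x : ℤ)) v : ℝ) ≤ ∑ x' ∈ Ico x lam, psi A I E r a d lam x'

theorem ax_add (d : Fin 3) (a b : ℤ) : ax d a + ax d b = ax d (a + b) := by
  funext t
  simp only [ax, Pi.add_apply]
  split_ifs <;> simp

theorem ax_self (d : Fin 3) (a : ℤ) : ax d a d = a := by simp [ax]

theorem ax_ne {d t : Fin 3} (h : t ≠ d) (a : ℤ) : ax d a t = 0 := by simp [ax, h]

theorem leg_step {I : ℕ} {E : ℕ → ℕ} {r : ℕ → ℝ} {h len : ℕ → ℕ} {B : ℕ → Finset (List St)}
    (hL : Lad I E r h len B) {A : Finset V} {a : V} {d : Fin 3} {lam x l : ℕ} (hl : l ≤ I)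
    (hal : l = 0 ∨ (¬ near A (24 * E l) (a + ax d (x : ℤ)) ∧ 72 * E l ≤ x ∧
      x + h l + 72 * E l ≤ lam)) (hxl : x + h l ≤ lam)
    (hpsi : ∀ x' ∈ Ico x (x + h l), r l ≤ psi A I E r a d lam x')
    {b v : List St} (hb : b ∈ B l) (hv : Wd A I E r a d lam (x + h l) v) :
    Wd A I E r a d lam x (b.map (perm d) ++ v) := by
  classical
  obtain ⟨b1, b2, b3, b4⟩ := hL.mem l hl b hb
  have hh : 1 ≤ h l := hL.h_pos l hl
  set b' := b.map (perm d) with hb'
  have hlen : b'.length = len l := by rw [hb', List.length_map, b1]
  have hposd : ∀ i, pos b' i d = pos b i 0 := by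
    intro i
    rw [hb', pos_map_perm, Equiv.swap_apply_right]
  have hpost : ∀ i ≤ b'.length, ∀ t, |pos b' i t| ≤ 24 * (E l : ℤ) := by
    intro i hi t
    rw [hb', pos_map_perm]
    exact b4 i (by rwa [hb', List.length_map] at hi) _
  have hdisp : disp b' = ax d (h l : ℤ) := by
    funext t
    rw [hb', disp_map_perm, b3]
    by_cases ht : t = d
    · subst ht
      rw [Equiv.swap_apply_right, ax_self, ax_self]
    · rw [ax_ne ht, ax_ne]
      intro h0
      apply ht
      have := congrArg (Equiv.swap 0 d) h0
      rw [Equiv.swap_apply_self, Equiv.swap_apply_left] at this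
      exact this
  have hsaw : Saw b' := by rw [hb']; exact saw_map_perm d b2.1
  have hd0 : ∀ i, 1 ≤ i → i ≤ b'.length → 0 < pos b' i d ∧ pos b' i d ≤ (h l : ℤ) := by
    intro i h1 h2
    rw [hposd]
    have := b2.2 i h1 (by rwa [hb', List.length_map] at h2)
    rw [b3, ax_self] at this
    exact this
  have hd1 : ∀ i ≤ b'.length, 0 ≤ pos b' i d ∧ pos b' i d ≤ (h l : ℤ) := by
    intro i hi
    rcases Nat.eq_zero_or_pos i with h0 | h0
    · subst h0
      rw [pos_zero]
      exact ⟨le_rfl, by positivity⟩
    · exact ⟨(hd0 i h0 hi).1.le, (hd0 i h0 hi).2⟩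
  -- lateral coordinates for `l = 0`
  have hlat0 : l = 0 → ∀ i ≤ b'.length, ∀ t, t ≠ d → pos b' i t = 0 := by
    intro h0 i hi t ht
    have hle : b'.length = 1 := by rw [hlen, h0, hL.len_zero]
    rcases Nat.eq_zero_or_pos i with h1 | h1
    · subst h1
      rw [pos_zero]
      rfl
    · have : i = b'.length := by omega
      rw [this, pos_length, hdisp, ax_ne ht]
  have hcast : ((x + h l : ℕ) : ℤ) = x + h l := by push_cast; ring
  have hxl' : (x : ℤ) + h l ≤ lam := by exact_mod_cast hxl
  have hh' : (1 : ℤ) ≤ h l := by exact_mod_cast hh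
  -- positions of the second part
  have hv1 : ∀ j, 1 ≤ j → j ≤ v.length → 0 < pos v j d ∧ pos v j d ≤ (lam : ℤ) - (x + h l) := by
    intro j h1 h2
    have := hv.dir j h1 h2
    rwa [hcast] at this
  refine ⟨?_, ?_, ?_, ?_, ?_⟩
  · -- self-avoiding
    intro i j hij hj hc
    rw [List.length_append] at hj
    rcases le_or_gt j b'.length with hj1 | hj1
    · rw [pos_append_left v hj1, pos_append_left v (hij.le.trans hj1)] at hc
      exact hsaw i j hij hj1 hc
    · rcases le_or_gt b'.length i with hi1 | hi1
      · rw [pos_append_right' v hj1.le, pos_append_right' v hi1] at hc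
        exact hv.saw (i - b'.length) (j - b'.length) (by omega) (by omega)
          (add_left_cancel hc)
      · rw [pos_append_right' v hj1.le, pos_append_left v hi1.le] at hc
        have h1 := congrFun hc d
        rw [Pi.add_apply, hdisp, ax_self] at h1
        have h2 := (hd1 i hi1.le).2
        have h3 := (hv1 (j - b'.length) (by omega) (by omega)).1
        omega
  · rw [disp_append, hdisp, hv.disp, ax_add]
    congr 1
    rw [hcast]
    ring
  · intro i h1 h2
    rw [List.length_append] at h2
    rcases le_or_gt i b'.length with h3 | h3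
    · rw [pos_append_left v h3]
      have := hd0 i h1 h3
      exact ⟨this.1, by omega⟩
    · rw [pos_append_right' v h3.le, Pi.add_apply, hdisp, ax_self]
      have := hv1 (i - b'.length) (by omega) (by omega)
      exact ⟨by omega, by omega⟩
  · intro i h2 t ht
    rw [List.length_append] at h2
    rcases le_or_gt i b'.length with h3 | h3
    · rw [pos_append_left v h3]
      have hdi := hd1 i h3
      rcases hal with h0 | ⟨_, g1, g2⟩
      · rw [hlat0 h0 i h3 t ht, abs_zero]
        constructor <;> omega
      · have h4 := hpost i h3 t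
        have g1' : 72 * (E l : ℤ) ≤ x := by exact_mod_cast g1
        have g2' : (x : ℤ) + h l + 72 * E l ≤ lam := by exact_mod_cast g2
        constructor <;> omega
    · rw [pos_append_right' v h3.le, Pi.add_apply, Pi.add_apply, hdisp, ax_self, ax_ne ht,
        zero_add]
      have := hv.lat (i - b'.length) (by omega) t ht
      rw [hcast] at this
      constructor <;> omega
  · -- hits
    have h1 := hits_append A (a + ax d (x : ℤ)) b' v
    have h2 : a + ax d (x : ℤ) + disp b' = a + ax d ((x + h l : ℕ) : ℤ) := by
      rw [hdisp, add_assoc, ax_add, hcast]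
    rw [h2] at h1
    have h3 := hv.hit
    have hsplit : ∑ x' ∈ Ico x lam, psi A I E r a d lam x' =
        ∑ x' ∈ Ico x (x + h l), psi A I E r a d lam x' +
          ∑ x' ∈ Ico (x + h l) lam, psi A I E r a d lam x' :=
      (sum_Ico_consecutive _ (by omega) hxl).symm
    have h4 : (hits A (a + ax d (x : ℤ)) b' : ℝ) ≤
        ∑ x' ∈ Ico x (x + h l), psi A I E r a d lam x' := by
      have h5 : ∑ _x' ∈ Ico x (x + h l), r l ≤ ∑ x' ∈ Ico x (x + h l), psi A I E r a d lam x' :=
        sum_le_sum hpsi
      rw [sum_const, Nat.card_Ico, nsmul_eq_mul] at h5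
      have hrl := hL.r_pos l hl
      rcases hal with h0 | ⟨g0, _, _⟩
      · have h6 : hits A (a + ax d (x : ℤ)) b' ≤ 1 := by
          refine (hits_le_length _ _ _).trans ?_
          rw [hlen, h0, hL.len_zero]
        have h7 : (hits A (a + ax d (x : ℤ)) b' : ℝ) ≤ 1 := by exact_mod_cast h6
        refine h7.trans (le_trans ?_ h5)
        rw [h0, hL.r_zero, hL.h_zero]
        have : x + 1 - x = 1 := by omega
        rw [this]
        norm_num
      · have h6 : hits A (a + ax d (x : ℤ)) b' = 0 := by
          refine hits_zero _ _ _ (24 * E l) g0 fun i hi t => ?_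
          have := hpost i hi t
          push_cast
          exact this
        rw [h6]
        refine le_trans ?_ h5
        push_cast
        positivity
    have h5 : (hits A (a + ax d (x : ℤ)) (b' ++ v) : ℝ) ≤
        (hits A (a + ax d (x : ℤ)) b' : ℝ) + (hits A (a + ax d ((x + h l : ℕ) : ℤ)) v : ℝ) := by
      exact_mod_cast h1
    rw [hsplit]
    linarith

theorem leg : S_LEG := by
  classical
  intro I E r h len B hL Lm hLm A a d lam
  have hr0 : ∀ l < I, 0 ≤ r l := fun l hl => (hL.r_pos l hl.le).le
  have key : ∀ n x : ℕ, x ≤ lam → lam - x = n → ∃ (L : ℕ) (U : Finset (List St)),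
      L ≤ (lam - x) * Lm ∧ (∀ v ∈ U, v.length = L ∧ Wd A I E r a d lam x v) ∧
      mu ^ L * Real.exp (-(∑ x' ∈ Ico x lam, psi A I E r a d lam x')) ≤ (#U : ℝ) := by
    intro n
    induction n using Nat.strong_induction_on with
    | _ n ih =>
      intro x hx hn
      rcases Nat.eq_or_lt_of_le hx with hxe | hxlt
      · subst hxe
        refine ⟨0, {[]}, by omega, ?_, ?_⟩
        · intro v hv
          rw [mem_singleton] at hv
          subst hv
          refine ⟨rfl, saw_nil, ?_, ?_, ?_, ?_⟩
          · rw [disp_nil, sub_self]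
            funext t
            simp [ax]
          · intro i h1 h2
            simp at h2
            omega
          · intro i h1 t _
            rw [pos_nil]
            simp
          · unfold hits
            simp
        · simp
      · -- the largest allowed level
        set al : ℕ → Prop := fun l => l = 0 ∨ (¬ near A (24 * E l) (a + ax d (x : ℤ)) ∧
          72 * E l ≤ x ∧ x + h l + 72 * E l ≤ lam) with hal
        obtain ⟨l, hl1, hl2⟩ := ((range (I + 1)).filter al).exists_max_image (fun l => l)
          ⟨0, mem_filter.2 ⟨mem_range.2 (by omega), Or.inl rfl⟩⟩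
        rw [mem_filter, mem_range] at hl1
        obtain ⟨hlI, hla⟩ := hl1
        have hlI' : l ≤ I := by omega
        have hh := hL.h_pos l hlI'
        have hxl : x + h l ≤ lam := by
          rcases hla with h0 | ⟨_, _, h0⟩
          · rw [h0, hL.h_zero]
            omega
          · omega
        -- the cost
        have hpsi : ∀ x' ∈ Ico x (x + h l), r l ≤ psi A I E r a d lam x' := by
          intro x' hx'
          rw [mem_Ico] at hx'
          rcases Nat.eq_or_lt_of_le hlI' with he | hlt
          · rw [he]
            exact psi_ge hr0 a d lam x'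
          · have hnot : ¬ al (l + 1) := by
              intro h0
              have := hl2 (l + 1) (mem_filter.2 ⟨mem_range.2 (by omega), h0⟩)
              omega
            simp only [hal, not_or, not_and_or, not_not, not_le] at hnot
            obtain ⟨_, hnot⟩ := hnot
            have hhE := hL.h_le l hlI'
            have hhE1 := hL.h_le (l + 1) (by omega)
            have hE1 := hL.E_mono l hlt
            have hrI := hL.r_pos I le_rfl
            have h1 : r I + r l ≤ psi A I E r a d lam x' := by
              refine psi_ge' hr0 a d lam x' hlt ?_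
              rcases hnot with ⟨y, hy, hy1⟩ | hnot | hnot
              · left
                refine ⟨y, hy, fun t => ?_⟩
                have h2 := hy1 t
                rw [Pi.add_apply] at h2 ⊢
                push_cast at h2 ⊢
                by_cases ht : t = d
                · subst ht
                  rw [ax_self] at h2 ⊢
                  rw [abs_le] at h2 ⊢
                  have g1 : (x : ℤ) ≤ x' := by exact_mod_cast hx'.1
                  have g2 : (x' : ℤ) < x + h l := by exact_mod_cast hx'.2
                  have g3 : (h l : ℤ) ≤ 24 * E l := by exact_mod_cast hhE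
                  have g4 : (E l : ℤ) ≤ E (l + 1) := by exact_mod_cast hE1
                  constructor <;> omega
                · rw [ax_ne ht] at h2 ⊢
                  rw [abs_le] at h2 ⊢
                  have g4 : (0 : ℤ) ≤ E (l + 1) := by positivity
                  constructor <;> omega
              · right; left
                omega
              · right; right
                omega
            linarith
        obtain ⟨L', U', hL', hU', hc'⟩ := ih (lam - (x + h l)) (by omega) (x + h l) hxl rfl
        refine ⟨len l + L', (B l ×ˢ U').image (fun p => p.1.map (perm d) ++ p.2), ?_, ?_, ?_⟩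
        · have h1 := hLm l hlI'
          obtain ⟨m, hm⟩ : ∃ m, lam - (x + h l) = m := ⟨_, rfl⟩
          rw [hm] at hL'
          have h2 : m + 1 ≤ lam - x := by omega
          calc len l + L' ≤ Lm + m * Lm := Nat.add_le_add h1 hL'
            _ = (m + 1) * Lm := by ring
            _ ≤ (lam - x) * Lm := Nat.mul_le_mul_right _ h2
        · intro v hv
          rw [mem_image] at hv
          obtain ⟨⟨b, v'⟩, hp, rfl⟩ := hv
          rw [mem_product] at hp
          obtain ⟨hb, hv'⟩ := hp
          refine ⟨?_, leg_step hL hlI' hla hxl hpsi hb (hU' _ hv').2⟩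
          rw [List.length_append, List.length_map, (hL.mem l hlI' b hb).1, (hU' _ hv').1]
        · have hinj : Set.InjOn (fun p : List St × List St => p.1.map (perm d) ++ p.2)
              ((B l ×ˢ U' : Finset (List St × List St)) : Set (List St × List St)) := by
            rintro ⟨b, v⟩ hp ⟨b', v'⟩ hp' he
            rw [Finset.mem_coe, mem_product] at hp hp'
            simp only at he
            have h1 : (b.map (perm d)).length = (b'.map (perm d)).length := by
              rw [List.length_map, List.length_map, (hL.mem l hlI' b hp.1).1,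
                (hL.mem l hlI' b' hp'.1).1]
            obtain ⟨h2, h3⟩ := List.append_inj he h1
            have h4 : b = b' := by
              have := congrArg (List.map (perm d)) h2
              rwa [map_perm_perm, map_perm_perm] at this
            rw [h4, h3]
          rw [card_image_of_injOn hinj, card_product]
          push_cast
          have hsplit : ∑ x' ∈ Ico x lam, psi A I E r a d lam x' =
              ∑ x' ∈ Ico x (x + h l), psi A I E r a d lam x' +
                ∑ x' ∈ Ico (x + h l) lam, psi A I E r a d lam x' :=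
            (sum_Ico_consecutive _ (by omega) hxl).symm
          have h5 : ∑ _x' ∈ Ico x (x + h l), r l ≤
              ∑ x' ∈ Ico x (x + h l), psi A I E r a d lam x' := sum_le_sum hpsi
          rw [sum_const, Nat.card_Ico, nsmul_eq_mul, Nat.add_sub_cancel_left] at h5
          have h6 := hL.card l hlI'
          have hmu : (0 : ℝ) ≤ mu := by
            unfold mu
            exact Real.iInf_nonneg fun n => by positivity
          rw [hsplit, neg_add, Real.exp_add, pow_add]
          calc mu ^ len l * mu ^ L' *
                (Real.exp (-(∑ x' ∈ Ico x (x + h l), psi A I E r a d lam x')) *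
                Real.exp (-(∑ x' ∈ Ico (x + h l) lam, psi A I E r a d lam x')))
              = (mu ^ len l * Real.exp (-(∑ x' ∈ Ico x (x + h l), psi A I E r a d lam x'))) *
                (mu ^ L' * Real.exp (-(∑ x' ∈ Ico (x + h l) lam, psi A I E r a d lam x'))) := by
                ring
            _ ≤ (mu ^ len l * Real.exp (-(r l * h l))) *
                (mu ^ L' * Real.exp (-(∑ x' ∈ Ico (x + h l) lam, psi A I E r a d lam x'))) := by
                gcongr
                linarith
            _ ≤ (#(B l) : ℝ) * (#U' : ℝ) := by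
                gcongr
  obtain ⟨L, U, hLL, hU, hc⟩ := key lam 0 (Nat.zero_le _) (by omega)
  have hP : ∑ x' ∈ Ico 0 lam, psi A I E r a d lam x' = Psi A I E r a d lam := by
    unfold Psi
    rw [Nat.Ico_zero_eq_range]
  have ha : a + ax d ((0 : ℕ) : ℤ) = a := by
    funext t
    simp [ax]
  refine ⟨L, U, by simpa using hLL, ?_, by rw [← hP]; exact hc⟩
  intro u hu
  obtain ⟨h1, h2⟩ := hU u hu
  refine ⟨h1, ⟨h2.saw, ?_, ?_, ?_⟩, ?_⟩
  · have := h2.disp
    simpa using this
  · intro i h3 h4
    have := h2.dir i h3 h4
    simpa using this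
  · intro i h3 t ht
    have := h2.lat i h3 t ht
    simpa using this
  · have := h2.hit
    rw [hP, ha] at this
    exact this

end Pool.Agent.W216.S3
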